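import Pool.Agent.Helper22.FF.Cover
import Pool.Agent.Helper22.FF.Sums
import Pool.Agent.Helper22.FF.Gold
import Pool.Agent.Helper1.Tet.Final

/-!
Problem MP_8ae016_co (tetrahedra that tile three-dimensional space).

All but countably many tetrahedra which tile space face-to-face belong to the first or to the third
family of Goldberg, and both families do tile face-to-face.  The same holds for tetrahedra which
tile in any way and whose distinct edge lengths are linearly independent over the rational numbers.
-/

open MeasureTheory Set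

namespace Pool.Agent.Results.MP_8ae016_co.FaceToFace

/-- Euclidean three-dimensional space. -/
abbrev Space := EuclideanSpace ℝ (Fin 3)

/-- The set `T` tiles space: there is a family of sets, each the image of `T` under an isometry
of space (reflections allowed), whose union is all of space and whose interiors are pairwise
disjoint.  The tiling need not be face-to-face. -/
def Tiles (T : Set Space) : Prop :=
  ∃ F : Set (Set Space), (∀ S ∈ F, ∃ g : Space ≃ᵢ Space, S = g '' T) ∧ ⋃₀ F = univ ∧
    ∀ S ∈ F, ∀ S' ∈ F, S ≠ S' → Disjoint (interior S) (interior S')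

/-- The tetrahedron with the vertices `p 0, p 1, p 2, p 3` tiles space face-to-face: there is a
family of quadruples of points, each the image of `p` under an isometry of space (reflections
allowed), such that the tetrahedra with these vertices cover space, and any two of them have
disjoint interiors and meet exactly in the convex hull of their common vertices (a common face of
some dimension, or nothing). -/
def TilesFaceToFace (p : Fin 4 → Space) : Prop :=
  ∃ F : Set (Fin 4 → Space), (∀ q ∈ F, ∃ g : Space ≃ᵢ Space, q = g ∘ p) ∧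
    (⋃ q ∈ F, convexHull ℝ (range q)) = univ ∧
    ∀ q ∈ F, ∀ q' ∈ F, q ≠ q' →
      Disjoint (interior (convexHull ℝ (range q))) (interior (convexHull ℝ (range q'))) ∧
      convexHull ℝ (range q) ∩ convexHull ℝ (range q') = convexHull ℝ (range q ∩ range q')

/-- The six edge lengths of the tetrahedron with vertices `p 0, p 1, p 2, p 3`. -/
noncomputable def edges (p : Fin 4 → Space) : Fin 6 → ℝ :=
  ![dist (p 0) (p 1), dist (p 0) (p 2), dist (p 0) (p 3), dist (p 1) (p 2), dist (p 1) (p 3),
    dist (p 2) (p 3)]

/-- Goldberg's first family: `P 0, P 1, P 2, P 3` with `P k` at height `k h` on the edges, taken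
cyclically, of a vertical prism over an equilateral triangle of side `√3`. -/
noncomputable def goldberg1 (h : ℝ) : Fin 4 → Space :=
  ![!₂[1, 0, 0], !₂[-1 / 2, √3 / 2, h], !₂[-1 / 2, -√3 / 2, 2 * h], !₂[1, 0, 3 * h]]

/-- Goldberg's third family: one half of the preceding tetrahedron, with the midpoint of `P 0 P 3`
instead of `P 3`. -/
noncomputable def goldberg3 (h : ℝ) : Fin 4 → Space :=
  ![!₂[1, 0, 0], !₂[-1 / 2, √3 / 2, h], !₂[-1 / 2, -√3 / 2, 2 * h], !₂[1, 0, 3 / 2 * h]]

/-- The tetrahedra with vertices `p` and `q` are similar (`p` may be relabelled). -/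
def Similar (p q : Fin 4 → Space) : Prop :=
  ∃ σ : Equiv.Perm (Fin 4), ∃ t : ℝ, 0 < t ∧ ∀ a b, dist (p (σ a)) (p (σ b)) = t * dist (q a) (q b)

/-- (1) There is a countable set `C` such that every tetrahedron of volume one which tiles space
face-to-face, or which tiles space in any way and whose distinct edge lengths are linearly
independent over `ℚ`, is similar to a member of Goldberg's first or third family, or has its edge
vector in `C`.  (2) All members of these two families tile space face-to-face. -/
theorem result :
    (∃ C : Set (Fin 6 → ℝ), C.Countable ∧ ∀ p : Fin 4 → Space, AffineIndependent ℝ p →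
      volume (convexHull ℝ (range p)) = 1 →
      (TilesFaceToFace p ∨ (Tiles (convexHull ℝ (range p)) ∧
        LinearIndependent ℚ (fun x : range (edges p) => (x : ℝ)))) →
      (∃ h : ℝ, 0 < h ∧ (Similar p (goldberg1 h) ∨ Similar p (goldberg3 h))) ∨ edges p ∈ C) ∧
    ∀ (p : Fin 4 → Space) (h : ℝ), 0 < h → (Similar p (goldberg1 h) ∨ Similar p (goldberg3 h)) →
      TilesFaceToFace p := by
  have hed : ∀ p : Fin 4 → Space, edges p = Helper1.Tet.len p := by
    intro p
    funext j
    fin_cases j <;> rfl
  refine ⟨?_, ?_⟩
  · obtain ⟨c, hc, hvol⟩ := Helper1.Tet.volume_tet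
    obtain ⟨C, hC, hcov⟩ := Helper22.FF.EE_cover_vol c hc
    refine ⟨C, hC, fun p hp hv ht => ?_⟩
    have hEE : Helper22.FF.EE (Helper1.Tet.len p) := by
      rcases ht with ht | ⟨ht, hI⟩
      · exact Helper22.FF.EE_of_tilesFF p hp ht
      · obtain ⟨F, hF, hF', hF''⟩ := ht
        refine Helper22.FF.EE_of_indep p hp
          ⟨F, hF, hF', fun S hS S' hS' hne => hF'' S hS S' hS' hne⟩ ?_
        rw [hed] at hI
        exact hI
    have h1 := hvol p hp
    rw [hv] at h1
    have h2 : ENNReal.ofReal (c * √(Helper1.Tet.Gr (Helper1.Tet.len p))) = ENNReal.ofReal 1 := by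
      rw [← h1]; simp
    have h3 : c * √(Helper1.Tet.Gr (Helper1.Tet.len p)) = 1 :=
      (ENNReal.ofReal_eq_ofReal_iff (by positivity) (by norm_num)).1 h2
    rcases hcov ⟨Helper1.Tet.len_mem_TT p hp, h3, hEE⟩ with h | ⟨σ, h⟩
    · right
      rw [hed]
      exact h
    · left
      rw [← Helper22.FF.len_perm p σ] at h
      have hpσ : AffineIndependent ℝ (p ∘ σ) := Helper22.FF.perm_indep hp σ
      rcases h with h | h
      · obtain ⟨x, hx, hS⟩ := Helper22.FF.sim_gold1_of_G1 (p ∘ σ) hpσ h
        exact ⟨x, hx, Or.inl (Helper22.FF.Sim.perm σ hS)⟩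
      · obtain ⟨x, hx, hS⟩ := Helper22.FF.sim_gold3_of_G3 (p ∘ σ) hpσ h
        exact ⟨x, hx, Or.inr (Helper22.FF.Sim.perm σ hS)⟩
  · intro p h hh hS
    rcases hS with hS | hS
    · exact Helper22.FF.gold1_tilesFF p h hh hS
    · exact Helper22.FF.gold3_tilesFF p h hh hS

end Pool.Agent.Results.MP_8ae016_co.FaceToFace
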