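import Pool.Agent.Helper22.PN.Final

/-!
Problem MP_8ae016_co (tetrahedra that tile three-dimensional space).

All segments of space-tiling tetrahedra.  A labelled tetrahedron is determined up to congruence by its six
squared edge lengths; for two tetrahedra `p`, `q` let `T_s` be the tetrahedron whose squared edge lengths
are `(1 - s) |p_i p_j|² + s |q_i q_j|²` (it exists for `0 ≤ s ≤ 1`).  If infinitely many of the tetrahedra
`T_s`, `0 ≤ s ≤ 1`, tile space (in any way, not necessarily face-to-face), then either all of them are similar or
`p` and `q` belong to one of the three classical families of Goldberg, with the same labelling; and then every `T_s`, for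
all real `s` for which it exists, tiles space.

Outline of the proof.  In a compact interval of parameters only finitely many local relations
between the dihedral angles can occur in a tiling, so infinitely many `s` have the same relations.
By analyticity the edge lengths of one `T_s` are orthogonal to the derivatives of the dihedral angles of any other one.
Simultaneous diagonalisation of the two quadratic forms: if there are three different eigenvalues the squared
edge lengths are, up to similarity and change of parameter, `t X + (t + 1) Y + Z`, `X, Y, Z` the squared differences of the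
coordinates.  The derivative of a dihedral angle is a rational function divided by the length of the edge, and linear
independence of the square roots splits the relations into relations between edges with proportional length
functions; their residues are relations between edges of the faces which are tangent to a quadric.  These relations, together
with the comparison of the flat tetrahedra at the two ends of the family (an inequality for the mean width
shows that some face is parallel to the first and some face parallel to the third axis), lead to a contradiction.
With two equal eigenvalues the family arises by stretching along an axis; such families are classified by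
the same method.
-/

open Set
open scoped RealInnerProductSpace

namespace Pool.Agent.Results.MP_8ae016_co.Segments

/-- Euclidean three-dimensional space. -/
abbrev Space := EuclideanSpace ℝ (Fin 3)

/-- The set `T` tiles space: there is a family of sets, each the image of `T` under an isometry
of space (reflections allowed), whose union is all of space and whose interiors are pairwise
disjoint.  The tiling need not be face-to-face. -/
def Tiles (T : Set Space) : Prop :=
  ∃ F : Set (Set Space), (∀ S ∈ F, ∃ g : Space ≃ᵢ Space, S = g '' T) ∧ ⋃₀ F = univ ∧
    ∀ S ∈ F, ∀ S' ∈ F, S ≠ S' → Disjoint (interior S) (interior S')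

/-- The set `T` tiles space axially with respect to the unit vector `u`: there is a tiling in which
every tile is the image of `T` under an isometry which preserves the absolute values of the
differences of heights, the height of a point `x` being `⟪u, x⟫`. -/
def TilesAxially (u : Space) (T : Set Space) : Prop :=
  ∃ F : Set (Set Space), (∀ S ∈ F, ∃ g : Space ≃ᵢ Space,
      (∀ x y, |⟪u, g x - g y⟫| = |⟪u, x - y⟫|) ∧ S = g '' T) ∧ ⋃₀ F = univ ∧
    ∀ S ∈ F, ∀ S' ∈ F, S ≠ S' → Disjoint (interior S) (interior S')

/-- Stretching by the factor `h` in the direction of the unit vector `u`: the component of `x` in the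
direction of `u` is multiplied by `h`, the component orthogonal to `u` is unchanged. -/
noncomputable def stretch (u : Space) (h : ℝ) (x : Space) : Space := x + ((h - 1) * ⟪u, x⟫) • u

/-- Goldberg's first family (Hill tetrahedra): `P 0, P 1, P 2, P 3` with `P k` at height `k h` on the
edges, taken cyclically, of a vertical prism over an equilateral triangle of side `√3`. -/
noncomputable def goldberg1 (h : ℝ) : Fin 4 → Space :=
  ![!₂[1, 0, 0], !₂[-1 / 2, √3 / 2, h], !₂[-1 / 2, -√3 / 2, 2 * h], !₂[1, 0, 3 * h]]

/-- Goldberg's second family: one half of the preceding tetrahedron, with the midpoint of `P 1 P 2`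
instead of `P 2`. -/
noncomputable def goldberg2 (h : ℝ) : Fin 4 → Space :=
  ![!₂[1, 0, 0], !₂[-1 / 2, √3 / 2, h], !₂[-1 / 2, 0, 3 / 2 * h], !₂[1, 0, 3 * h]]

/-- Goldberg's third family: one half of the first tetrahedron, with the midpoint of `P 0 P 3`
instead of `P 3`. -/
noncomputable def goldberg3 (h : ℝ) : Fin 4 → Space :=
  ![!₂[1, 0, 0], !₂[-1 / 2, √3 / 2, h], !₂[-1 / 2, -√3 / 2, 2 * h], !₂[1, 0, 3 / 2 * h]]

/-- The tetrahedra with vertices `p` and `q` are similar, the vertices `p i` and `q i` corresponding to
each other. -/
def Similar (p q : Fin 4 → Space) : Prop :=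
  ∃ t : ℝ, 0 < t ∧ ∀ i j, dist (q i) (q j) = t * dist (p i) (p j)

/-- The tetrahedra with vertices `p` and `q` belong to one and the same of Goldberg's three families, with
the same labelling of the vertices. -/
def SameFamily (p q : Fin 4 → Space) : Prop :=
  ∃ (σ : Equiv.Perm (Fin 4)) (h k : ℝ), 0 < h ∧ 0 < k ∧
    ((Similar (goldberg1 h) (p ∘ σ) ∧ Similar (goldberg1 k) (q ∘ σ)) ∨
      (Similar (goldberg2 h) (p ∘ σ) ∧ Similar (goldberg2 k) (q ∘ σ)) ∨
      (Similar (goldberg3 h) (p ∘ σ) ∧ Similar (goldberg3 k) (q ∘ σ)))

/-- `r` is the tetrahedron `T_s` on the line through `p` and `q`: its squared edge lengths are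
`(1 - s) |p_i p_j|² + s |q_i q_j|²`. -/
def OnLine (p q : Fin 4 → Space) (s : ℝ) (r : Fin 4 → Space) : Prop :=
  ∀ i j, dist (r i) (r j) ^ 2 = (1 - s) * dist (p i) (p j) ^ 2 + s * dist (q i) (q j) ^ 2

/-- For two tetrahedra with vertices `p`, `q` the following are equivalent: (1) `T_s` tiles space for
infinitely many `s ∈ [0, 1]`; (2) `T_s` tiles space for all real `s` for which it exists; (3) `q` is similar to
`p` and `p` tiles space, or `p` and `q` belong to the same of Goldberg's families, with the same labelling;
(4) `q` is similar to `p` and `p` tiles space, or there is a unit vector `u` such that `p` tiles space axially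
with respect to `u` and `q` is similar to a tetrahedron obtained from `p` by stretching in the direction `u`. -/
theorem result (p q : Fin 4 → Space) (hp : AffineIndependent ℝ p) (hq : AffineIndependent ℝ q) :
    List.TFAE [
      {s : ℝ | s ∈ Icc (0 : ℝ) 1 ∧ ∃ r : Fin 4 → Space, OnLine p q s r ∧
        Tiles (convexHull ℝ (range r))}.Infinite,
      ∀ (s : ℝ) (r : Fin 4 → Space), AffineIndependent ℝ r → OnLine p q s r →
        Tiles (convexHull ℝ (range r)),
      (Similar p q ∧ Tiles (convexHull ℝ (range p))) ∨ SameFamily p q,
      (Similar p q ∧ Tiles (convexHull ℝ (range p))) ∨ ∃ u : Space, ‖u‖ = 1 ∧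
        TilesAxially u (convexHull ℝ (range p)) ∧
        ∃ h : ℝ, 0 < h ∧ Similar (fun i => stretch u h (p i)) q] := by
  have h2 : ∀ T : Set Space, Tiles T ↔ Helper1.Tet.TilesSpace T := fun T =>
    ⟨fun ⟨F, hF, hF', hF''⟩ => ⟨F, hF, hF', fun S hS S' hS' hne => hF'' S hS S' hS' hne⟩,
      fun ⟨F, hF, hF', hF''⟩ => ⟨F, hF, hF', fun S hS S' hS' hne => hF'' hS hS' hne⟩⟩
  have h3 : ∀ u : Space, TilesAxially u (convexHull ℝ (range p)) ↔
      Helper22.ST.AxT u (convexHull ℝ (range p)) := fun u =>
    ⟨fun ⟨F, hF, hF', hF''⟩ => ⟨F, hF, hF', fun S hS S' hS' hne => hF'' S hS S' hS' hne⟩,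
      fun ⟨F, hF, hF', hF''⟩ => ⟨F, hF, hF', fun S hS S' hS' hne => hF'' hS hS' hne⟩⟩
  have h := Helper22.PN.main_tfae p q hp hq
  simp only [h2, h3]
  exact h

end Pool.Agent.Results.MP_8ae016_co.Segments
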