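import Pool.Agent.Helper1.Tet.Final

/-!
Problem MP_8ae016_co (tetrahedra that tile three-dimensional space).

The set of shapes of tetrahedra that tile space (not necessarily face-to-face), a subset of the
five-dimensional space of all shapes, is contained in a countable union of Lipschitz curves and
has Hausdorff dimension exactly one.  A shape is given by the six edge lengths of a labelled
tetrahedron of volume one.

Outline of the proof.  A tetrahedron that tiles has Dehn invariant zero, so its vector of edge
lengths lies in the real span of the rational relations between the dihedral angles and `π`.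
For every rational space of relations of rank at most two or at least five the corresponding
shapes lie on a curve.  For rank three a two-parameter family would be linear in the edge lengths,
for rank four it would be linear in the dihedral angles, and both are impossible.
The lower bound comes from Goldberg's family.
-/

open MeasureTheory Set
open scoped NNReal

namespace Pool.Agent.Results.MP_8ae016_co.ShapesOneDimensional

/-- Euclidean three-dimensional space. -/
abbrev Space := EuclideanSpace ℝ (Fin 3)

/-- The set `T` tiles space: there is a family of sets, each the image of `T` under an isometry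
of space (reflections allowed), whose union is all of space and whose interiors are pairwise
disjoint.  The tiling need not be face-to-face. -/
def Tiles (T : Set Space) : Prop :=
  ∃ F : Set (Set Space), (∀ S ∈ F, ∃ g : Space ≃ᵢ Space, S = g '' T) ∧ ⋃₀ F = univ ∧
    ∀ S ∈ F, ∀ S' ∈ F, S ≠ S' → Disjoint (interior S) (interior S')

/-- The six edge lengths of the tetrahedron with vertices `p 0, p 1, p 2, p 3`. -/
noncomputable def edges (p : Fin 4 → Space) : Fin 6 → ℝ :=
  ![dist (p 0) (p 1), dist (p 0) (p 2), dist (p 0) (p 3), dist (p 1) (p 2), dist (p 1) (p 3),
    dist (p 2) (p 3)]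

/-- The shapes of the tetrahedra that tile space: the vectors of edge lengths of the tetrahedra
of volume one that tile space. -/
def tilingShapes : Set (Fin 6 → ℝ) :=
  {l | ∃ p : Fin 4 → Space, AffineIndependent ℝ p ∧ volume (convexHull ℝ (range p)) = 1 ∧
    Tiles (convexHull ℝ (range p)) ∧ l = edges p}

/-- The shapes of tetrahedra that tile space are contained in a countable union of Lipschitz
curves, and they form a set of Hausdorff dimension exactly one. -/
theorem result :
    (∃ γ : ℕ → ℝ → (Fin 6 → ℝ), (∀ n, ∃ K : ℝ≥0, LipschitzWith K (γ n)) ∧
      tilingShapes ⊆ ⋃ n, range (γ n)) ∧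
    dimH tilingShapes = 1 := by
  have h1 : ∀ p : Fin 4 → Space, edges p = Helper1.Tet.len p := by
    intro p
    funext j
    fin_cases j <;> rfl
  have h2 : tilingShapes = Helper1.Tet.shapes := by
    ext l
    constructor
    · rintro ⟨p, hp, hv, ⟨F, hF, hF', hF''⟩, rfl⟩
      exact ⟨p, hp, hv, ⟨F, hF, hF', fun S hS S' hS' hne => hF'' S hS S' hS' hne⟩, h1 p⟩
    · rintro ⟨p, hp, hv, ⟨F, hF, hF', hF''⟩, rfl⟩
      exact ⟨p, hp, hv, ⟨F, hF, hF', fun S hS S' hS' hne => hF'' hS hS' hne⟩, (h1 p).symm⟩
  rw [h2]
  exact Helper1.Tet.main

end Pool.Agent.Results.MP_8ae016_co.ShapesOneDimensional
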