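import Pool.Agent.Helper13.HT.Final

/-!
Problem MP_8ae016_co (tetrahedra that tile three-dimensional space).

Among the tetrahedra of volume one and bounded diameter which have a nontrivial symmetry and tile
space (not necessarily face-to-face), all but finitely many are Hill tetrahedra; and all Hill
tetrahedra are symmetric and tile space.

Outline of the proof.  Let `α` be the six dihedral angles and `l` the six edge lengths of a tiling
tetrahedron, and `x = π l / (l · α)`.  The local relations around the edges of a tiling and a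
separation argument show that `x` is a convex combination of vectors `u` with nonnegative
half-integral entries and `u · α = π`.  By inequalities for mean widths `x` lies in a small polytope.
In the two classes of symmetric tetrahedra (a two-fold axis, a mirror plane) all this happens in
dimension four, so `x` is a combination of one, two, three or four linearly independent `u`.  One:
impossible; four: the angles are determined; two: `x` moves on a segment and one studies the ends of
the segment; three: the angles move on a line and one studies a trigonometric identity along the line.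
-/

open MeasureTheory Set

namespace Pool.Agent.Results.MP_8ae016_co.SymmetricTetrahedra

/-- Euclidean three-dimensional space. -/
abbrev Space := EuclideanSpace ℝ (Fin 3)

/-- The set `T` tiles space: there is a family of sets, each the image of `T` under an isometry
of space (reflections allowed), whose union is all of space and whose interiors are pairwise
disjoint.  The tiling need not be face-to-face. -/
def Tiles (T : Set Space) : Prop :=
  ∃ F : Set (Set Space), (∀ S ∈ F, ∃ g : Space ≃ᵢ Space, S = g '' T) ∧ ⋃₀ F = univ ∧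
    ∀ S ∈ F, ∀ S' ∈ F, S ≠ S' → Disjoint (interior S) (interior S')

/-- The six edge lengths of the tetrahedron with vertices `p 0, p 1, p 2, p 3`. -/
noncomputable def edges (p : Fin 4 → Space) : Fin 6 → ℝ :=
  ![dist (p 0) (p 1), dist (p 0) (p 2), dist (p 0) (p 3), dist (p 1) (p 2), dist (p 1) (p 3),
    dist (p 2) (p 3)]

/-- The tetrahedron with vertices `p 0, ..., p 3` has a nontrivial symmetry: a permutation of the
vertices, not the identity, preserves all distances. -/
def Symmetric (p : Fin 4 → Space) : Prop :=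
  ∃ σ : Equiv.Perm (Fin 4), σ ≠ 1 ∧ ∀ i j, dist (p (σ i)) (p (σ j)) = dist (p i) (p j)

/-- Hill tetrahedra: in some order `v₀, v₁, v₂, v₃` of the vertices the consecutive vertices have
distance `√(e² + h²)`, `v₀ v₂` and `v₁ v₃` have length `√(e² + 4 h²)` and `v₀ v₃` has length `3 h`. -/
def IsHill (p : Fin 4 → Space) : Prop :=
  ∃ (e h : ℝ) (τ : Equiv.Perm (Fin 4)), 0 < e ∧ 0 < h ∧
    dist (p (τ 0)) (p (τ 1)) = √(e ^ 2 + h ^ 2) ∧ dist (p (τ 1)) (p (τ 2)) = √(e ^ 2 + h ^ 2) ∧
    dist (p (τ 2)) (p (τ 3)) = √(e ^ 2 + h ^ 2) ∧ dist (p (τ 0)) (p (τ 2)) = √(e ^ 2 + 4 * h ^ 2) ∧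
    dist (p (τ 1)) (p (τ 3)) = √(e ^ 2 + 4 * h ^ 2) ∧ dist (p (τ 0)) (p (τ 3)) = 3 * h

/-- For every `R`: the edge vectors of the tetrahedra of volume one with edges at most `R` that have a
nontrivial symmetry and tile space are the edge vectors of the Hill tetrahedra of volume one with
edges at most `R`, together with a finite set. -/
theorem result (R : ℝ) : ∃ F : Set (Fin 6 → ℝ), F.Finite ∧
    {l | ∃ p : Fin 4 → Space, AffineIndependent ℝ p ∧ volume (convexHull ℝ (range p)) = 1 ∧
      (∀ i j, dist (p i) (p j) ≤ R) ∧ Symmetric p ∧ Tiles (convexHull ℝ (range p)) ∧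
      l = edges p} =
    {l | ∃ p : Fin 4 → Space, AffineIndependent ℝ p ∧ volume (convexHull ℝ (range p)) = 1 ∧
      (∀ i j, dist (p i) (p j) ≤ R) ∧ IsHill p ∧ l = edges p} ∪ F := by
  have h1 : ∀ p : Fin 4 → Space, edges p = Helper1.Tet.len p := by
    intro p
    funext j
    fin_cases j <;> rfl
  have h2 : ∀ T : Set Space, Tiles T ↔ Helper1.Tet.TilesSpace T := fun T =>
    ⟨fun ⟨F, hF, hF', hF''⟩ => ⟨F, hF, hF', fun S hS S' hS' hne => hF'' S hS S' hS' hne⟩,
      fun ⟨F, hF, hF', hF''⟩ => ⟨F, hF, hF', fun S hS S' hS' hne => hF'' hS hS' hne⟩⟩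
  refine ⟨{l | ∃ p : Fin 4 → Space, AffineIndependent ℝ p ∧
    volume (convexHull ℝ (range p)) = 1 ∧ (∀ i j, dist (p i) (p j) ≤ R) ∧ Symmetric p ∧
    Tiles (convexHull ℝ (range p)) ∧ ¬ IsHill p ∧ l = edges p}, ?_, ?_⟩
  · refine (Helper13.HT.main_finite R).subset ?_
    rintro l ⟨p, hp, hv, hR, hs, hT, hH, rfl⟩
    exact ⟨p, hp, hv, (h2 _).1 hT, hs, hH, hR, h1 p⟩
  · ext l
    constructor
    · rintro ⟨p, hp, hv, hR, hs, hT, rfl⟩
      by_cases hH : IsHill p
      · exact Or.inl ⟨p, hp, hv, hR, hH, rfl⟩
      · exact Or.inr ⟨p, hp, hv, hR, hs, hT, hH, rfl⟩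
    · rintro (⟨p, hp, hv, hR, hH, rfl⟩ | ⟨p, hp, hv, hR, hs, hT, -, rfl⟩)
      · exact ⟨p, hp, hv, hR, Helper13.HT.hill_sym p hH, (h2 _).2 (Helper13.HT.hill_tiles p hp hH),
          rfl⟩
      · exact ⟨p, hp, hv, hR, hs, hT, rfl⟩

end Pool.Agent.Results.MP_8ae016_co.SymmetricTetrahedra
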